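import Pool.Agent.N760.SC.A
import Pool.Agent.N790.CM.F

/-!
# Properties of tuples which are bad for few tuples at every scale, at the multiples of Carmichael's function
-/

set_option autoImplicit false

namespace Pool.Agent.N628.CMT

open Finset
open Pool.Agent.N790.CM (FewTimes Carries keep_near)
open Pool.Agent.N760.SC (BadTuples count_scales)

/-- `s_i = a_i v_i + b_i` with integers `a_i ≠ 0`, `|a_i|, |b_i| ≤ v_l ^ η` for some `l` -/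
def NearMultiple {k : ℕ} (η : ℝ) (v s : Fin k → ℕ) : Prop :=
  ∃ (a b : Fin k → ℤ) (l : Fin k), (∀ i, a i ≠ 0 ∧ |(a i : ℝ)| ≤ (v l : ℝ) ^ η ∧ |(b i : ℝ)| ≤ (v l : ℝ) ^ η) ∧
    ∀ i, (s i : ℤ) = a i * v i + b i

/-- **Tuples at scales, near multiples.** Let `B ≥ 1`, `B (k - 1) < k`. There is `η > 0` such that for every property of tuples
at scales which is bad for at most `K N ^ (k - 1)` tuples at the scale `N`: for all but `N^k / (log N)^U` of the tuples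
`m ≤ N`, for ALL tuples `v` of common multiples `v_i ≤ N^B`, no tuple `s` near multiples of `v` is bad at a scale `T` with
all `s_i` in `[T, κ T]`. -/
theorem scales {k : ℕ} (hk : 1 ≤ k) {B : ℝ} (hB : 1 ≤ B) (hBk : B * ((k : ℝ) - 1) < k) : ∃ η : ℝ, 0 < η ∧
    ∀ (κ : ℕ) (P Q : ℕ → (Fin k → ℕ) → Prop),
    (∀ (N T : ℕ) (s : Fin k → ℕ), N ≤ T → T < 2 * N → P T s → Q N s) →
    (∃ K N₀ : ℕ, ∀ N : ℕ, N₀ ≤ N →
      {s : Fin k → ℕ | (∀ j, N ≤ s j ∧ s j ≤ (2 * κ) * N) ∧ Q N s}.ncard ≤ K * N ^ (k - 1)) →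
    ∀ (T' : ℕ) (F : Fin k → ℕ → ℕ), (∀ i, FewTimes (F i) T') → ∀ U : ℕ, ∃ N₀ : ℕ, ∀ N : ℕ, N₀ ≤ N →
      ({m : Fin k → ℕ | (∀ i, 1 ≤ m i ∧ m i ≤ N) ∧ ¬ ∀ v : Fin k → ℕ, (∀ i, 1 ≤ v i ∧ (v i : ℝ) ≤ (N : ℝ) ^ B ∧
        Carries (F i) (Real.exp √(Real.log N)) (m i) (v i)) → ∀ (s : Fin k → ℕ) (T : ℕ), 1 ≤ T →
        (∀ i, T ≤ s i ∧ s i ≤ κ * T) → NearMultiple η v s → ¬ P T s}.ncard : ℝ) ≤
        (N : ℝ) ^ k / Real.log N ^ U := by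
  classical
  have hk1 : (1 : ℝ) ≤ k := by exact_mod_cast hk
  obtain ⟨ε, hε⟩ : ∃ ε : ℝ, ε = (k - B * (k - 1)) / (2 * B) := ⟨_, rfl⟩
  have hε0 : 0 < ε := by
    rw [hε]
    exact div_pos (by linarith) (by linarith)
  have hBε : B * ε = (k - B * (k - 1)) / 2 := by
    rw [hε]
    field_simp
  obtain ⟨η, hη, hnear⟩ := keep_near hk (c := 1 - ε) (B := B) (by linarith) hB (by
    have : B * (k - (1 - ε)) = B * (k - 1) + B * ε := by ring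
    rw [this, hBε]
    linarith)
  refine ⟨η, hη, fun κ P Q hPQ hQ T' F hF U => ?_⟩
  obtain ⟨C₀, hC₀, h1⟩ := count_scales hk κ P Q hPQ hQ ε hε0
  obtain ⟨N₀, hN₀⟩ := hnear T' F hF C₀ U
  refine ⟨N₀, fun N hN => ?_⟩
  obtain ⟨E, hE⟩ : ∃ E : Set (Fin k → ℤ), E = {α : Fin k → ℤ | ∃ s : Fin k → ℕ, s ∈ BadTuples κ P ∧ ∀ i, α i = (s i : ℤ)} :=
    ⟨_, rfl⟩
  have h3 := hN₀ N hN E (fun X hX => by
    have hfin : {s : Fin k → ℕ | s ∈ BadTuples κ P ∧ ∀ i, s i ≤ X}.Finite := by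
      refine (Set.Finite.pi' (t := fun _ : Fin k => Set.Iic X) fun _ => Set.finite_Iic _).subset ?_
      intro s hs j
      exact hs.2 j
    have hsub : {α : Fin k → ℤ | (∀ i, |α i| ≤ (X : ℤ)) ∧ α ∈ E} ⊆
        (fun (s : Fin k → ℕ) (i : Fin k) => (s i : ℤ)) '' {s : Fin k → ℕ | s ∈ BadTuples κ P ∧ ∀ i, s i ≤ X} := by
      rintro α ⟨g1, g2⟩
      rw [hE] at g2
      obtain ⟨s, hs, g3⟩ := g2
      refine ⟨s, ⟨hs, fun i => ?_⟩, ?_⟩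
      · have g4 := g1 i
        rw [g3 i, abs_of_nonneg (by positivity)] at g4
        exact_mod_cast g4
      · funext i
        exact (g3 i).symm
    have h4 : {α : Fin k → ℤ | (∀ i, |α i| ≤ (X : ℤ)) ∧ α ∈ E}.ncard ≤
        {s : Fin k → ℕ | s ∈ BadTuples κ P ∧ ∀ i, s i ≤ X}.ncard :=
      (Set.ncard_le_ncard hsub (hfin.image _)).trans (Set.ncard_image_le hfin)
    refine le_trans (by exact_mod_cast h4) ((h1 X hX).trans (le_of_eq ?_))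
    congr 2
    ring)
  have hfin : {m : Fin k → ℕ | (∀ i, 1 ≤ m i ∧ m i ≤ N) ∧ ¬ ∀ w : Fin k → ℕ, (∀ i, 1 ≤ w i ∧ (w i : ℝ) ≤ (N : ℝ) ^ B ∧
        Carries (F i) (Real.exp √(Real.log N)) (m i) (w i)) →
        ∀ a b : Fin k → ℤ, (∃ l, ∀ i, a i ≠ 0 ∧ |(a i : ℝ)| ≤ (w l : ℝ) ^ η ∧ |(b i : ℝ)| ≤ (w l : ℝ) ^ η) →
        (fun i => a i * (w i : ℤ) + b i) ∉ E}.Finite := by
    refine (Set.Finite.pi' (t := fun _ : Fin k => Set.Icc 1 N) fun _ => Set.finite_Icc _ _).subset ?_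
    intro m hm i
    exact hm.1 i
  refine le_trans ?_ h3
  refine Nat.cast_le.2 (Set.ncard_le_ncard ?_ hfin)
  rintro m ⟨g1, g2⟩
  refine ⟨g1, fun g3 => g2 fun v hv s T hT hs hnm hP => ?_⟩
  obtain ⟨a, b, l, g4, g5⟩ := hnm
  refine g3 v hv a b ⟨l, g4⟩ ?_
  rw [hE]
  exact ⟨s, ⟨T, hT, hs, hP⟩, fun i => (g5 i).symm⟩

/-- powers of a constant at close scales -/
lemma pow_bound (C : ℝ) {N T : ℕ} (h : T ≤ 2 * N) : C ^ T ≤ ((max |C| 1) ^ 2) ^ N := by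
  have h5 : (1 : ℝ) ≤ max |C| 1 := le_max_right _ _
  calc C ^ T ≤ |C ^ T| := le_abs_self _
    _ = |C| ^ T := abs_pow C T
    _ ≤ (max |C| 1) ^ T := pow_le_pow_left₀ (abs_nonneg C) (le_max_left _ _) T
    _ ≤ (max |C| 1) ^ (2 * N) := pow_le_pow_right₀ h5 h
    _ = _ := pow_mul _ _ _

/-- the case of a property `E H s` which is monotone in `H`, at `H = C ^ T` -/
theorem powers {k : ℕ} (hk : 1 ≤ k) {B : ℝ} (hB : 1 ≤ B) (hBk : B * ((k : ℝ) - 1) < k) : ∃ η : ℝ, 0 < η ∧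
    ∀ E : ℝ → (Fin k → ℕ) → Prop, (∀ H H' s, H ≤ H' → E H s → E H' s) →
    (∀ κ : ℕ, ∃ K : ℕ, ∀ C : ℝ, ∃ N₀ : ℕ, ∀ N : ℕ, N₀ ≤ N →
      {s : Fin k → ℕ | (∀ j, N ≤ s j ∧ s j ≤ κ * N) ∧ E (C ^ N) s}.ncard ≤ K * N ^ (k - 1)) →
    ∀ (κ : ℕ) (C : ℝ) (T' : ℕ) (F : Fin k → ℕ → ℕ), (∀ i, FewTimes (F i) T') → ∀ U : ℕ, ∃ N₀ : ℕ, ∀ N : ℕ, N₀ ≤ N →
      ({m : Fin k → ℕ | (∀ i, 1 ≤ m i ∧ m i ≤ N) ∧ ¬ ∀ v : Fin k → ℕ, (∀ i, 1 ≤ v i ∧ (v i : ℝ) ≤ (N : ℝ) ^ B ∧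
        Carries (F i) (Real.exp √(Real.log N)) (m i) (v i)) → ∀ (s : Fin k → ℕ) (T : ℕ), 1 ≤ T →
        (∀ i, T ≤ s i ∧ s i ≤ κ * T) → NearMultiple η v s → ¬ E (C ^ T) s}.ncard : ℝ) ≤
        (N : ℝ) ^ k / Real.log N ^ U := by
  obtain ⟨η, hη, h⟩ := scales hk hB hBk
  refine ⟨η, hη, fun E hmono hfew κ C T' F hF U => ?_⟩
  obtain ⟨K, hK⟩ := hfew (2 * κ)
  obtain ⟨N₁, hN₁⟩ := hK ((max |C| 1) ^ 2)
  exact h κ (fun T s => E (C ^ T) s) (fun N s => E (((max |C| 1) ^ 2) ^ N) s)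
    (fun N T s _ h2 h3 => hmono _ _ s (pow_bound C h2.le) h3) ⟨K, N₁, hN₁⟩ T' F hF U

end Pool.Agent.N628.CMT
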